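import Pool.Agent.W581.HQ.Stm
import Pool.Agent.W557.HM.RC1

/-! Project HQ, part HOM: follows from helper557's theorem in project HM. -/

set_option autoImplicit false

namespace Pool.Agent.W91.HQ.Hom

theorem main : Pool.Agent.W581.HQ.S_HOM :=
  fun p A B hp h => Pool.Agent.W557.HM.RC1.main p A B hp.le h

end Pool.Agent.W91.HQ.Hom
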